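import Mathlib

/-!
# Weakly spreading linear triple systems: structure

Counting lemmas and the structural lemma on closures starting from a set of hubs.
-/

set_option autoImplicit false
set_option linter.unusedSectionVars false

namespace Pool.Agent.X50.WS
open Finset

variable {V : Type*} [Fintype V] [DecidableEq V]

/-- A set of vertices is closed if it contains every triple meeting it in two vertices. -/
def Closed (F : Finset (Finset V)) (W : Finset V) : Prop :=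
  ∀ T ∈ F, ∀ x ∈ T, ∀ y ∈ T, x ≠ y → x ∈ W → y ∈ W → T ⊆ W

/-- The working hypotheses. -/
structure Sys (F : Finset (Finset V)) : Prop where
  c3 : ∀ T ∈ F, T.card = 3
  lin : ∀ S ∈ F, ∀ T ∈ F, ∀ x, ∀ y, x ∈ S → y ∈ S → x ∈ T → y ∈ T → x ≠ y → S = T
  ws : ∀ S ∈ F, ∀ T ∈ F, S ≠ T → ∀ W, S ⊆ W → T ⊆ W → Closed F W → ∀ v, v ∈ W
  big : 7 ≤ Fintype.card V

/-- The degree. -/
def deg (F : Finset (Finset V)) (v : V) : ℕ := (F.filter (v ∈ ·)).card

/-- Ordered pairs of distinct vertices of the triples. -/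
def prs (F : Finset (Finset V)) : Finset (V × V) := F.biUnion (fun R => R.offDiag)

/-- Triples with at least two vertices in `H`. -/
def F2 (F : Finset (Finset V)) (H : Finset V) : Finset (Finset V) :=
  F.filter (fun T => 2 ≤ (T ∩ H).card)

/-- Triples without vertices in `H`. -/
def F0 (F : Finset (Finset V)) (H : Finset V) : Finset (Finset V) :=
  F.filter (fun T => ∀ x ∈ T, x ∉ H)

theorem mem_prs {F : Finset (Finset V)} {r : V × V} :
    r ∈ prs F ↔ ∃ R ∈ F, r.1 ∈ R ∧ r.2 ∈ R ∧ r.1 ≠ r.2 := by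
  simp [prs, mem_offDiag]

theorem three {T : Finset V} (h : T.card = 3) {x y z w : V} (hx : x ∈ T) (hy : y ∈ T)
    (hz : z ∈ T) (hw : w ∈ T) (hxy : x ≠ y) (hxz : x ≠ z) (hyz : y ≠ z) :
    w = x ∨ w = y ∨ w = z := by
  have hsub : ({x, y, z} : Finset V) ⊆ T := by
    intro a ha
    simp only [mem_insert, mem_singleton] at ha
    rcases ha with rfl | rfl | rfl <;> assumption
  have hc : ({x, y, z} : Finset V).card = 3 := by
    rw [card_insert_of_notMem (by simp [hxy, hxz]), card_insert_of_notMem (by simp [hyz]),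
      card_singleton]
  have := eq_of_subset_of_card_le hsub (by omega)
  rw [← this] at hw
  simpa using hw

theorem cross {F : Finset (Finset V)} (hF : Sys F) {S T : Finset V} (hS : S ∈ F) (hT : T ∈ F)
    (hne : S ≠ T) : ∃ x ∈ S, ∃ y ∈ T, x ∉ T ∧ y ∉ S ∧ ∃ R ∈ F, x ∈ R ∧ y ∈ R := by
  by_contra hcon
  have hcl : Closed F (S ∪ T) := by
    intro R hR x hx y hy hxy hxW hyW
    by_cases hS2 : x ∈ S ∧ y ∈ S
    · rw [hF.lin R hR S hS x y hx hy hS2.1 hS2.2 hxy]
      exact subset_union_left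
    by_cases hT2 : x ∈ T ∧ y ∈ T
    · rw [hF.lin R hR T hT x y hx hy hT2.1 hT2.2 hxy]
      exact subset_union_right
    exfalso
    rcases mem_union.1 hxW with hxS | hxT
    · have hyS : y ∉ S := fun h => hS2 ⟨hxS, h⟩
      have hyT : y ∈ T := (mem_union.1 hyW).resolve_left hyS
      have hxT : x ∉ T := fun h => hT2 ⟨h, hyT⟩
      exact hcon ⟨x, hxS, y, hyT, hxT, hyS, R, hR, hx, hy⟩
    · have hyT : y ∉ T := fun h => hT2 ⟨hxT, h⟩
      have hyS : y ∈ S := (mem_union.1 hyW).resolve_right hyT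
      have hxS : x ∉ S := fun h => hS2 ⟨h, hyS⟩
      exact hcon ⟨y, hyS, x, hxT, hyT, hxS, R, hR, hy, hx⟩
  have hall := hF.ws S hS T hT hne _ subset_union_left subset_union_right hcl
  have h1 : (univ : Finset V).card ≤ (S ∪ T).card := card_le_card (fun v _ => hall v)
  have h2 := card_union_le S T
  have h3 := hF.c3 S hS
  have h4 := hF.c3 T hT
  have h5 := hF.big
  rw [card_univ] at h1
  omega

theorem count_le (F : Finset (Finset V)) (A : Finset (Finset V × Finset V))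
    (Q : Finset (V × V))
    (hA : ∀ p ∈ A, p.1 ∈ F ∧ p.2 ∈ F ∧ ∃ r ∈ Q, r.1 ∈ p.1 ∧ r.2 ∈ p.2) :
    A.card ≤ ∑ r ∈ Q, deg F r.1 * deg F r.2 := by
  have hsub : A ⊆ Q.biUnion (fun r => (F.filter (r.1 ∈ ·)) ×ˢ (F.filter (r.2 ∈ ·))) := by
    intro p hp
    obtain ⟨h1, h2, r, hr, h3, h4⟩ := hA p hp
    exact mem_biUnion.2 ⟨r, hr, mem_product.2 ⟨mem_filter.2 ⟨h1, h3⟩, mem_filter.2 ⟨h2, h4⟩⟩⟩
  calc A.card ≤ _ := card_le_card hsub
    _ ≤ ∑ r ∈ Q, ((F.filter (r.1 ∈ ·)) ×ˢ (F.filter (r.2 ∈ ·))).card := card_biUnion_le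
    _ = _ := by simp [card_product, deg]

theorem card_prs {F : Finset (Finset V)} (h3 : ∀ T ∈ F, T.card = 3) :
    (prs F).card ≤ 6 * F.card := by
  unfold prs
  calc _ ≤ ∑ R ∈ F, R.offDiag.card := card_biUnion_le
    _ = ∑ R ∈ F, 6 := by
        refine sum_congr rfl fun R hR => ?_
        rw [offDiag_card, h3 R hR]
    _ = 6 * F.card := by rw [sum_const, smul_eq_mul, mul_comm]

theorem deg_bound {F : Finset (Finset V)} (hF : Sys F) (v : V) :
    deg F v * deg F v - deg F v ≤ 6 * F.card := by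
  classical
  haveI : Nonempty V := ⟨v⟩
  have hex : ∀ p ∈ (F.filter (v ∈ ·)).offDiag, ∃ r : V × V, r ∈ prs F ∧ r.1 ∈ p.1 ∧
      r.2 ∈ p.2 ∧ r.1 ≠ v ∧ r.2 ≠ v := by
    intro p hp
    obtain ⟨h1, h2, hne⟩ := mem_offDiag.1 hp
    obtain ⟨h1F, h1v⟩ := mem_filter.1 h1
    obtain ⟨h2F, h2v⟩ := mem_filter.1 h2
    obtain ⟨x, hx, y, hy, hxT, hyS, R, hR, hxR, hyR⟩ := cross hF h1F h2F hne
    refine ⟨(x, y), mem_prs.2 ⟨R, hR, hxR, hyR, ?_⟩, hx, hy, ?_, ?_⟩
    · intro h
      have h' : x = y := h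
      exact hxT (h' ▸ hy)
    · rintro rfl; exact hxT h2v
    · rintro rfl; exact hyS h1v
  choose! f hf using hex
  have h1 : (F.filter (v ∈ ·)).offDiag.card ≤ (prs F).card := by
    refine card_le_card_of_injOn f (fun p hp => (hf p hp).1) ?_
    intro p hp p' hp' heq
    have hp1 := hf p hp
    have hp1' := hf p' hp'
    rw [← heq] at hp1'
    obtain ⟨g1, g2, -⟩ := mem_offDiag.1 (mem_coe.1 hp)
    obtain ⟨g1', g2', -⟩ := mem_offDiag.1 (mem_coe.1 hp')
    have e1 : p.1 = p'.1 := hF.lin p.1 (mem_filter.1 g1).1 p'.1 (mem_filter.1 g1').1 (f p).1 v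
      hp1.2.1 (mem_filter.1 g1).2 hp1'.2.1 (mem_filter.1 g1').2 hp1.2.2.2.1
    have e2 : p.2 = p'.2 := hF.lin p.2 (mem_filter.1 g2).1 p'.2 (mem_filter.1 g2').1 (f p).2 v
      hp1.2.2.1 (mem_filter.1 g2).2 hp1'.2.2.1 (mem_filter.1 g2').2 hp1.2.2.2.2
    exact Prod.ext e1 e2
  rw [offDiag_card] at h1
  exact h1.trans (card_prs hF.c3)

theorem deg_sq {F : Finset (Finset V)} (hF : Sys F) (v : V) :
    deg F v * deg F v ≤ 7 * F.card := by
  have h1 := deg_bound hF v
  have h2 : deg F v ≤ F.card := card_filter_le _ _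
  omega

theorem sum_deg {F : Finset (Finset V)} (h3 : ∀ T ∈ F, T.card = 3) (H : Finset V) :
    ∑ v ∈ H, deg F v ≤ 3 * F.card := by
  unfold deg
  simp only [card_filter]
  rw [sum_comm]
  calc ∑ T ∈ F, ∑ v ∈ H, (if v ∈ T then 1 else 0) ≤ ∑ T ∈ F, 3 := by
        refine sum_le_sum fun T hT => ?_
        rw [← card_filter, ← h3 T hT]
        exact card_le_card (fun v hv => (mem_filter.1 hv).2)
    _ = 3 * F.card := by rw [sum_const, smul_eq_mul, mul_comm]

theorem rank_exists {F : Finset (Finset V)} (H : Finset V)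
    (hcl : ∀ W, H ⊆ W → Closed F W → ∀ v, v ∈ W) (h3 : ∀ T ∈ F, T.card = 3) :
    ∃ ρ : V → ℕ, ∀ x, x ∉ H → ∃ T ∈ F, x ∈ T ∧ ∀ y ∈ T, y ≠ x → ρ y < ρ x := by
  classical
  let nx : Finset V → Finset V := fun W =>
    W ∪ univ.filter (fun z => ∃ T ∈ F, z ∈ T ∧ ∀ y ∈ T, y ≠ z → y ∈ W)
  let st : ℕ → Finset V := fun k => nx^[k] H
  have hst0 : st 0 = H := rfl
  have hsts : ∀ k, st (k + 1) = st k ∪
      univ.filter (fun z => ∃ T ∈ F, z ∈ T ∧ ∀ y ∈ T, y ≠ z → y ∈ st k) := fun k =>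
    Function.iterate_succ_apply' nx k H
  have hmono : Monotone st := monotone_nat_of_le_succ (fun k => by
    rw [hsts]; exact subset_union_left)
  have hall : ∀ v, ∃ k, v ∈ st k := by
    have := hcl (univ.filter (fun v => ∃ k, v ∈ st k)) ?_ ?_
    · intro v
      simpa using this v
    · intro v hv
      exact mem_filter.2 ⟨mem_univ _, 0, hv⟩
    · intro T hT x hx y hy hxy hxW hyW z hz
      obtain ⟨-, a, ha⟩ := mem_filter.1 hxW
      obtain ⟨-, b, hb⟩ := mem_filter.1 hyW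
      have ha' := hmono (le_max_left a b) ha
      have hb' := hmono (le_max_right a b) hb
      refine mem_filter.2 ⟨mem_univ _, ?_⟩
      by_cases hzx : z = x
      · exact ⟨a, hzx ▸ ha⟩
      by_cases hzy : z = y
      · exact ⟨b, hzy ▸ hb⟩
      refine ⟨max a b + 1, ?_⟩
      rw [hsts]
      refine mem_union_right _ (mem_filter.2 ⟨mem_univ _, T, hT, hz, ?_⟩)
      intro w hw hwz
      rcases three (h3 T hT) hx hy hz hw hxy (Ne.symm hzx) (Ne.symm hzy) with rfl | rfl | rfl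
      · exact ha'
      · exact hb'
      · exact absurd rfl hwz
  refine ⟨fun v => Nat.find (hall v), fun x hx => ?_⟩
  have hfx := Nat.find_spec (hall x)
  have hne : Nat.find (hall x) ≠ 0 := by
    intro h0
    rw [h0, hst0] at hfx
    exact hx hfx
  obtain ⟨k, hk⟩ := Nat.exists_eq_succ_of_ne_zero hne
  have hnot : x ∉ st k := Nat.find_min (hall x) (by omega)
  rw [hk, Nat.succ_eq_add_one, hsts] at hfx
  rcases mem_union.1 hfx with h | h
  · exact absurd h hnot
  obtain ⟨-, T, hT, hxT, hTy⟩ := mem_filter.1 h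
  refine ⟨T, hT, hxT, fun y hy hyx => ?_⟩
  have : Nat.find (hall y) ≤ k := Nat.find_min' (hall y) (hTy y hy hyx)
  show Nat.find (hall y) < Nat.find (hall x)
  omega

end Pool.Agent.X50.WS
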