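import Pool.Agent.X50.WS.Struct

/-!
# Weakly spreading linear triple systems: the lower bound
-/

set_option autoImplicit false
set_option linter.unusedSectionVars false

namespace Pool.Agent.X50.WS
open Finset

variable {V : Type*} [Fintype V] [DecidableEq V]

theorem covered {F : Finset (Finset V)} (hF : Sys F) (h2 : 2 ≤ F.card) :
    Fintype.card V ≤ 3 * F.card := by
  classical
  obtain ⟨S, hS, T, hT, hne⟩ := one_lt_card.1 (by omega : 1 < F.card)
  have hall := hF.ws S hS T hT hne (F.biUnion id)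
    (fun x hx => mem_biUnion.2 ⟨S, hS, hx⟩) (fun x hx => mem_biUnion.2 ⟨T, hT, hx⟩)
    (fun R hR _ _ _ _ _ _ _ z hz => mem_biUnion.2 ⟨R, hR, hz⟩)
  rw [← card_univ]
  calc (univ : Finset V).card ≤ (F.biUnion id).card := card_le_card (fun v _ => hall v)
    _ ≤ ∑ T ∈ F, (id T).card := card_biUnion_le
    _ = ∑ T ∈ F, 3 := sum_congr rfl (fun T hT => hF.c3 T hT)
    _ = 3 * F.card := by rw [sum_const, smul_eq_mul, mul_comm]

theorem deg_mul_le {F : Finset (Finset V)} (hF : Sys F) (x y : V) :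
    deg F x * deg F y ≤ 7 * F.card := by
  have h1 := deg_sq hF x
  have h2 := deg_sq hF y
  by_contra h
  push Not at h
  have h3 : (deg F x * deg F x) * (deg F y * deg F y) ≤ (7 * F.card) * (7 * F.card) :=
    Nat.mul_le_mul h1 h2
  have h4 := Nat.mul_self_lt_mul_self h
  nlinarith

/-- The hubs. -/
def hubs (F : Finset (Finset V)) (q : ℕ) : Finset V :=
  univ.filter (fun v => F.card ≤ 7 * q ^ 2 * (deg F v * deg F v))

theorem nonhub_mul {F : Finset (Finset V)} (hF : Sys F) (q : ℕ) {x y : V}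
    (hx : x ∉ hubs F q ∨ y ∉ hubs F q) : q * (deg F x * deg F y) ≤ F.card := by
  have key : ∀ a b : V, a ∉ hubs F q → q * (deg F a * deg F b) ≤ F.card := by
    intro a b ha
    have ha' : 7 * q ^ 2 * (deg F a * deg F a) < F.card := by
      by_contra h
      push Not at h
      exact ha (mem_filter.2 ⟨mem_univ _, h⟩)
    have hb := deg_sq hF b
    by_contra h
    push Not at h
    have h3 : (7 * q ^ 2 * (deg F a * deg F a)) * (deg F b * deg F b) ≤
        F.card * (7 * F.card) := Nat.mul_le_mul ha'.le hb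
    have h4 := Nat.mul_self_lt_mul_self h
    nlinarith
  rcases hx with h | h
  · exact key x y h
  · rw [mul_comm (deg F x)]; exact key y x h

theorem count_pairs {F : Finset (Finset V)} (hF : Sys F) (q : ℕ) :
    q * (F.card * F.card - F.card) ≤
      42 * q * F.card * (F2 F (hubs F q)).card + 6 * F.card * F.card := by
  classical
  have h1 := count_le F F.offDiag (prs F) (by
    intro p hp
    obtain ⟨hS, hT, hne⟩ := mem_offDiag.1 hp
    obtain ⟨x, hx, y, hy, hxT, hyS, R, hR, hxR, hyR⟩ := cross hF hS hT hne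
    refine ⟨hS, hT, (x, y), mem_prs.2 ⟨R, hR, hxR, hyR, ?_⟩, hx, hy⟩
    intro h
    have h' : x = y := h
    exact hxT (h' ▸ hy))
  rw [offDiag_card] at h1
  have h2 : ∀ r ∈ prs F, q * (deg F r.1 * deg F r.2) ≤
      (if r ∈ prs (F2 F (hubs F q)) then 7 * q * F.card else 0) + F.card := by
    intro r hr
    by_cases hrr : r ∈ prs (F2 F (hubs F q))
    · rw [if_pos hrr]
      have := Nat.mul_le_mul_left q (deg_mul_le hF r.1 r.2)
      linarith
    · rw [if_neg hrr, zero_add]
      refine nonhub_mul hF q ?_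
      by_contra hcon
      push Not at hcon
      obtain ⟨R, hR, h1, h2, hne⟩ := mem_prs.1 hr
      refine hrr (mem_prs.2 ⟨R, mem_filter.2 ⟨hR, ?_⟩, h1, h2, hne⟩)
      have : ({r.1, r.2} : Finset V) ⊆ R ∩ hubs F q := by
        intro c hc
        simp only [mem_insert, mem_singleton] at hc
        rcases hc with rfl | rfl
        · exact mem_inter.2 ⟨h1, hcon.1⟩
        · exact mem_inter.2 ⟨h2, hcon.2⟩
      have h2 := card_le_card this
      rwa [card_pair hne] at h2
  have hF2 : F2 F (hubs F q) ⊆ F := filter_subset _ _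
  have h3 : ∑ r ∈ prs F, (if r ∈ prs (F2 F (hubs F q)) then 7 * q * F.card else 0) ≤
      7 * q * F.card * (6 * (F2 F (hubs F q)).card) := by
    rw [← sum_filter, sum_const, smul_eq_mul, mul_comm]
    refine Nat.mul_le_mul_left _ ?_
    refine le_trans (card_le_card ?_) (card_prs (fun T hT => hF.c3 T (hF2 hT)))
    intro r hr
    exact (mem_filter.1 hr).2
  calc q * (F.card * F.card - F.card) ≤ q * ∑ r ∈ prs F, deg F r.1 * deg F r.2 :=
        Nat.mul_le_mul_left _ h1
    _ = ∑ r ∈ prs F, q * (deg F r.1 * deg F r.2) := mul_sum _ _ _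
    _ ≤ ∑ r ∈ prs F, ((if r ∈ prs (F2 F (hubs F q)) then 7 * q * F.card else 0) + F.card) :=
        sum_le_sum h2
    _ = ∑ r ∈ prs F, (if r ∈ prs (F2 F (hubs F q)) then 7 * q * F.card else 0) +
        (prs F).card * F.card := by rw [sum_add_distrib, sum_const, smul_eq_mul]
    _ ≤ 7 * q * F.card * (6 * (F2 F (hubs F q)).card) + 6 * F.card * F.card :=
        Nat.add_le_add h3 (Nat.mul_le_mul_right _ (card_prs hF.c3))
    _ = _ := by ring

theorem count_zero {F : Finset (Finset V)} (hF : Sys F) (q : ℕ) :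
    q * ((F0 F (hubs F q)).card * F.card) ≤
      6 * F.card * F.card + q * (F0 F (hubs F q)).card := by
  classical
  set A := F.offDiag.filter (fun p => p.1 ∈ F0 F (hubs F q)) with hA
  have h1 := count_le F A ((prs F).filter (fun r => r.1 ∉ hubs F q)) (by
    intro p hp
    obtain ⟨hp1, hp0⟩ := mem_filter.1 hp
    obtain ⟨hS, hT, hne⟩ := mem_offDiag.1 hp1
    obtain ⟨x, hx, y, hy, hxT, hyS, R, hR, hxR, hyR⟩ := cross hF hS hT hne
    refine ⟨hS, hT, (x, y), mem_filter.2 ⟨mem_prs.2 ⟨R, hR, hxR, hyR, ?_⟩, ?_⟩, hx, hy⟩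
    · intro h
      have h' : x = y := h
      exact hxT (h' ▸ hy)
    · exact (mem_filter.1 hp0).2 x hx)
  have h2 : (F0 F (hubs F q)).card * F.card ≤ A.card + (F0 F (hubs F q)).card := by
    rw [← card_product, ← diag_card (F0 F (hubs F q))]
    refine le_trans (card_le_card ?_) (card_union_le _ _)
    intro p hp
    obtain ⟨h1, h2⟩ := mem_product.1 hp
    by_cases h : p.1 = p.2
    · exact mem_union_right _ (mem_diag.2 ⟨h1, h⟩)
    · exact mem_union_left _ (mem_filter.2 ⟨mem_offDiag.2 ⟨(mem_filter.1 h1).1, h2, h⟩, h1⟩)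
  have h3 : q * A.card ≤ 6 * F.card * F.card := by
    calc q * A.card ≤ q * ∑ r ∈ (prs F).filter (fun r => r.1 ∉ hubs F q),
          deg F r.1 * deg F r.2 := Nat.mul_le_mul_left _ h1
      _ = ∑ r ∈ (prs F).filter (fun r => r.1 ∉ hubs F q), q * (deg F r.1 * deg F r.2) :=
          mul_sum _ _ _
      _ ≤ ∑ r ∈ (prs F).filter (fun r => r.1 ∉ hubs F q), F.card :=
          sum_le_sum (fun r hr => nonhub_mul hF q (Or.inl (mem_filter.1 hr).2))
      _ = ((prs F).filter (fun r => r.1 ∉ hubs F q)).card * F.card := by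
          rw [sum_const, smul_eq_mul]
      _ ≤ 6 * F.card * F.card := Nat.mul_le_mul_right _
          ((card_filter_le _ _).trans (card_prs hF.c3))
  calc q * ((F0 F (hubs F q)).card * F.card) ≤ q * (A.card + (F0 F (hubs F q)).card) :=
        Nat.mul_le_mul_left _ h2
    _ = q * A.card + q * (F0 F (hubs F q)).card := by ring
    _ ≤ _ := Nat.add_le_add_right h3 _

theorem hub_count {F : Finset (Finset V)} (hF : Sys F) (q : ℕ) (hq : 0 < q)
    (hm : 81 * q ^ 4 ≤ F.card) : q * (hubs F q).card ≤ F.card := by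
  have h1 : ∀ v ∈ hubs F q, 9 * q ^ 2 ≤ 3 * q * deg F v := by
    intro v hv
    have h := (mem_filter.1 hv).2
    by_contra hcon
    push Not at hcon
    have h4 := Nat.mul_self_lt_mul_self hcon
    nlinarith
  have h2 : (hubs F q).card * (9 * q ^ 2) ≤ 3 * q * (3 * F.card) := by
    calc (hubs F q).card * (9 * q ^ 2) = ∑ v ∈ hubs F q, 9 * q ^ 2 := by
          rw [sum_const, smul_eq_mul]
      _ ≤ ∑ v ∈ hubs F q, 3 * q * deg F v := sum_le_sum h1
      _ = 3 * q * ∑ v ∈ hubs F q, deg F v := by rw [mul_sum]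
      _ ≤ 3 * q * (3 * F.card) := Nat.mul_le_mul_left _ (sum_deg hF.c3 _)
  have h3 : (9 * q) * (q * (hubs F q).card) ≤ (9 * q) * F.card := by nlinarith
  exact Nat.le_of_mul_le_mul_left h3 (by omega)

theorem F2_small {F : Finset (Finset V)} (hF : Sys F) (H : Finset V) (hH : H.card ≤ 6) :
    (F2 F H).card ≤ 64 := by
  classical
  have h1 : (F2 F H).card ≤ H.powerset.card := by
    refine card_le_card_of_injOn (fun T => T ∩ H) (fun T _ => mem_coe.2 (mem_powerset.2 inter_subset_right)) ?_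
    intro S hS T hT hST
    obtain ⟨hSF, hSc⟩ := mem_filter.1 (mem_coe.1 hS)
    obtain ⟨hTF, hTc⟩ := mem_filter.1 (mem_coe.1 hT)
    obtain ⟨x, hx, y, hy, hxy⟩ := one_lt_card.1 (by omega : 1 < (S ∩ H).card)
    have hST' : S ∩ H = T ∩ H := hST
    have hx' := hx
    have hy' := hy
    rw [hST'] at hx' hy'
    exact hF.lin S hSF T hTF x y (mem_inter.1 hx).1 (mem_inter.1 hy).1 (mem_inter.1 hx').1
      (mem_inter.1 hy').1 hxy
  rw [card_powerset] at h1
  calc _ ≤ 2 ^ H.card := h1
    _ ≤ 2 ^ 6 := Nat.pow_le_pow_right (by norm_num) hH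
    _ = 64 := by norm_num

theorem lower {F : Finset (Finset V)} (hF : Sys F) (h2 : 2 ≤ F.card)
    (hn : 243 * 10 ^ 28 ≤ Fintype.card V) :
    (10 ^ 7 + 1) * Fintype.card V ≤ 10 ^ 7 * F.card := by
  classical
  by_contra hcon
  push Not at hcon
  have hcov := covered hF h2
  set q : ℕ := 10 ^ 7 with hq
  set m := F.card with hm
  set n := Fintype.card V with hnn
  have hmbig : 81 * q ^ 4 ≤ m := by
    rw [hq]; omega
  have hmbig' : 81 * 10 ^ 28 ≤ m := by omega
  set H := hubs F q with hH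
  have hhub : q * H.card ≤ m := hub_count hF q (by norm_num [hq]) hmbig
  have hc := count_pairs hF q
  have hz := count_zero hF q
  rw [← hm, ← hH] at hc hz
  -- f2 is large
  set f2 := (F2 F H).card with hf2
  set t0 := (F0 F H).card with ht0
  have hmpos : 0 < m := by omega
  have hc1 : q * (m - 1) ≤ 42 * q * f2 + 6 * m := by
    have : m * (q * (m - 1)) ≤ m * (42 * q * f2 + 6 * m) := by
      calc m * (q * (m - 1)) = q * (m * m - m) := by
            rw [show m * m - m = m * (m - 1) by rw [Nat.mul_sub, mul_one]]; ring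
        _ ≤ _ := hc
        _ = _ := by ring
    exact Nat.le_of_mul_le_mul_left this hmpos
  have hf2big : m ≤ 43 * f2 := by
    rw [hq] at hc1
    omega
  have ht0small : q * t0 ≤ 7 * m := by
    by_contra h
    push Not at h
    have h5 : q * t0 * (m - 1) ≤ 6 * m * m := by
      have : q * t0 * (m - 1) = q * (t0 * m) - q * t0 := by
        rw [Nat.mul_sub, mul_one, mul_assoc]
      omega
    have h6 : (7 * m) * (m - 1) ≤ q * t0 * (m - 1) := Nat.mul_le_mul_right _ h.le
    have h7 : m * (7 * (m - 1)) ≤ m * (6 * m) := by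
      calc m * (7 * (m - 1)) = (7 * m) * (m - 1) := by ring
        _ ≤ _ := h6
        _ ≤ _ := h5
        _ = _ := by ring
    have h8 := Nat.le_of_mul_le_mul_left h7 hmpos
    omega
  -- closure of the hubs
  have hcl : ∀ W, H ⊆ W → Closed F W → ∀ v, v ∈ W := by
    intro W hHW hW
    obtain ⟨S, hS, T, hT, hne⟩ := one_lt_card.1 (by omega : 1 < (F2 F H).card)
    have hsub : ∀ S ∈ F2 F H, S ⊆ W := by
      intro S hS
      obtain ⟨hSF, hSc⟩ := mem_filter.1 hS
      obtain ⟨x, hx, y, hy, hxy⟩ := one_lt_card.1 (by omega : 1 < (S ∩ H).card)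
      exact hW S hSF x (mem_inter.1 hx).1 y (mem_inter.1 hy).1 hxy (hHW (mem_inter.1 hx).2)
        (hHW (mem_inter.1 hy).2)
    exact hF.ws S (mem_filter.1 hS).1 T (mem_filter.1 hT).1 hne W (hsub S hS) (hsub T hT) hW
  obtain ⟨G2, E, hG2, hEF, hEc, hBT, hK⟩ := struct hF H hcl
  rw [← hm, ← hnn] at hEc
  rw [← ht0] at hBT
  set BT := F2 F H \ G2 with hBTdef
  have hE : q * E.card ≤ 3 * m := by
    rw [hq] at hhub hcon ⊢
    omega
  have hBT' : q * BT.card ≤ 33 * m := by
    rw [hq] at hE ht0small ⊢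
    omega
  have hsum : BT.card + G2.card = f2 := card_sdiff_add_card_eq_card hG2
  have hg : m ≤ 44 * G2.card := by
    rw [hq] at hBT'
    omega
  have hex : ∃ p ∈ G2.offDiag, ¬ ∃ r ∈ prs BT, r.1 ∈ p.1 ∧ r.2 ∈ p.2 := by
    by_contra hno
    push Not at hno
    have hBTF : BT ⊆ F := sdiff_subset.trans (filter_subset _ _)
    have h1 := count_le F G2.offDiag (prs BT) (by
      intro p hp
      obtain ⟨g1, g2, hne⟩ := mem_offDiag.1 hp
      exact ⟨(mem_filter.1 (hG2 g1)).1, (mem_filter.1 (hG2 g2)).1, hno p hp⟩)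
    rw [offDiag_card] at h1
    have h3 : ∑ r ∈ prs BT, deg F r.1 * deg F r.2 ≤ 6 * BT.card * (7 * m) := by
      calc _ ≤ ∑ r ∈ prs BT, 7 * m := sum_le_sum (fun r _ => deg_mul_le hF r.1 r.2)
        _ = (prs BT).card * (7 * m) := by rw [sum_const, smul_eq_mul]
        _ ≤ _ := Nat.mul_le_mul_right _ (card_prs (fun T hT => hF.c3 T (hBTF hT)))
    set g := G2.card with hgdef
    have h4 : q * (g * g - g) ≤ 42 * 33 * m * m := by
      calc q * (g * g - g) ≤ q * (6 * BT.card * (7 * m)) := Nat.mul_le_mul_left _ (h1.trans h3)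
        _ = 42 * m * (q * BT.card) := by ring
        _ ≤ 42 * m * (33 * m) := Nat.mul_le_mul_left _ hBT'
        _ = _ := by ring
    have h5 : g * g - g = g * (g - 1) := by rw [Nat.mul_sub, mul_one]
    rw [h5] at h4
    have h6 : 44 * (g - 1) + 44 ≥ m := by omega
    have h7 : 45 * (g - 1) ≥ m := by omega
    have h8 : m * m ≤ (44 * g) * (45 * (g - 1)) := Nat.mul_le_mul hg h7
    have h9 : 42 * 33 * m * m ≤ 42 * 33 * 44 * 45 * (g * (g - 1)) := by
      calc 42 * 33 * m * m = 42 * 33 * (m * m) := by ring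
        _ ≤ 42 * 33 * ((44 * g) * (45 * (g - 1))) := Nat.mul_le_mul_left _ h8
        _ = _ := by ring
    have hgpos : 0 < g * (g - 1) := Nat.mul_pos (by omega) (by omega)
    have h10 : q * (g * (g - 1)) ≤ 42 * 33 * 44 * 45 * (g * (g - 1)) := h4.trans h9
    have h11 := Nat.le_of_mul_le_mul_right h10 hgpos
    rw [hq] at h11
    norm_num at h11
  obtain ⟨p, hp, hnb⟩ := hex
  obtain ⟨g1, g2, hne⟩ := mem_offDiag.1 hp
  have hHK := hK p.1 g1 p.2 g2 hne (by
    intro x hx y hy hxy T hT hxyT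
    exact hnb ⟨(x, y), mem_prs.2 ⟨T, hT, hxyT.1, hxyT.2, hxy⟩, hx, hy⟩)
  have hH6 : H.card ≤ 6 := by
    have a1 := card_le_card hHK
    have a2 := card_union_le p.1 p.2
    have a3 := hF.c3 p.1 (mem_filter.1 (hG2 g1)).1
    have a4 := hF.c3 p.2 (mem_filter.1 (hG2 g2)).1
    omega
  have := F2_small hF H hH6
  omega

end Pool.Agent.X50.WS
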