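import Pool.Agent.X50.WS.Basic

/-!
# Weakly spreading linear triple systems: the structural lemma
-/

set_option autoImplicit false
set_option linter.unusedSectionVars false

namespace Pool.Agent.X50.WS
open Finset

variable {V : Type*} [Fintype V] [DecidableEq V]

theorem parent_exists {H : Finset V} (π : V → Finset V) (ρ : V → ℕ)
    (hρ : ∀ x, x ∉ H → ∀ y ∈ π x, y ≠ x → ρ y < ρ x) :
    ∃ p : V → V, ∀ x, x ∉ H → p x ∉ H ∧ (p x ≠ x → p x ∈ π x ∧ ρ (p x) < ρ x) ∧
      (p x = x → ∀ y ∈ π x, y ≠ x → y ∈ H) := by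
  classical
  have h : ∀ x : V, ∃ y : V, x ∉ H → y ∉ H ∧ (y ≠ x → y ∈ π x ∧ ρ y < ρ x) ∧
      (y = x → ∀ z ∈ π x, z ≠ x → z ∈ H) := by
    intro x
    by_cases hx : ∃ y ∈ π x, y ≠ x ∧ y ∉ H
    · obtain ⟨y, hy, hyx, hyH⟩ := hx
      exact ⟨y, fun hxH => ⟨hyH, fun _ => ⟨hy, hρ x hxH y hy hyx⟩, fun h => absurd h hyx⟩⟩
    · refine ⟨x, fun hxH => ⟨hxH, fun h => absurd rfl h, fun _ z hz hzx => ?_⟩⟩
      by_contra hzH
      exact hx ⟨z, hz, hzx, hzH⟩
  choose p hp using h
  exact ⟨p, hp⟩

theorem root_exists {H : Finset V} (p : V → V) (ρ : V → ℕ)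
    (hp : ∀ x, x ∉ H → p x ∉ H ∧ (p x ≠ x → ρ (p x) < ρ x)) :
    ∃ rt : V → V, ∀ x, x ∉ H → rt x ∉ H ∧ rt (p x) = rt x ∧ (p x = x → rt x = x) ∧
      p (rt x) = rt x := by
  classical
  have hit : ∀ k x, x ∉ H → p^[k] x ∉ H := by
    intro k
    induction k with
    | zero => intro x hx; exact hx
    | succ k ih =>
      intro x hx
      rw [Function.iterate_succ_apply]
      exact ih _ (hp x hx).1
  have hfix : ∀ k x, x ∉ H → ρ x ≤ k → p (p^[k] x) = p^[k] x := by
    intro k
    induction k with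
    | zero =>
      intro x hx h0
      by_contra hne
      have := (hp x hx).2 hne
      omega
    | succ k ih =>
      intro x hx hk
      rw [Function.iterate_succ_apply]
      by_cases hpx : p x = x
      · have : ∀ j, p^[j] x = x := fun j => Function.iterate_fixed hpx j
        rw [hpx, this k, hpx]
      · exact ih _ (hp x hx).1 (by have := (hp x hx).2 hpx; omega)
  refine ⟨fun x => p^[∑ v, ρ v] x, fun x hx => ⟨hit _ x hx, ?_, ?_, ?_⟩⟩
  · have h1 := hfix (∑ v, ρ v) x hx (single_le_sum (f := ρ) (fun _ _ => Nat.zero_le _) (mem_univ x))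
    show p^[∑ v, ρ v] (p x) = p^[∑ v, ρ v] x
    rw [← Function.iterate_succ_apply, Function.iterate_succ_apply', h1]
  · intro h
    exact Function.iterate_fixed h _
  · exact hfix (∑ v, ρ v) x hx (single_le_sum (f := ρ) (fun _ _ => Nat.zero_le _) (mem_univ x))

theorem struct {F : Finset (Finset V)} (hF : Sys F) (H : Finset V)
    (hcl : ∀ W, H ⊆ W → Closed F W → ∀ v, v ∈ W) :
    ∃ G2 E : Finset (Finset V), G2 ⊆ F2 F H ∧ E ⊆ F ∧
      E.card + Fintype.card V = F.card + H.card ∧
      (F2 F H \ G2).card ≤ 4 * E.card + 3 * (F0 F H).card ∧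
      ∀ T₁ ∈ G2, ∀ T₂ ∈ G2, T₁ ≠ T₂ →
        (∀ x ∈ T₁, ∀ y ∈ T₂, x ≠ y → ∀ T ∈ F2 F H \ G2, ¬ (x ∈ T ∧ y ∈ T)) →
        H ⊆ T₁ ∪ T₂ := by
  classical
  obtain ⟨ρ, hρ⟩ := rank_exists H hcl hF.c3
  choose! π hπ using hρ
  have hinj : ∀ x, x ∉ H → ∀ y, y ∉ H → π x = π y → x = y := by
    intro x hx y hy hxy
    by_contra hne
    have h1 := (hπ x hx).2.2 y (by rw [hxy]; exact (hπ y hy).2.1) (Ne.symm hne)
    have h2 := (hπ y hy).2.2 x (by rw [← hxy]; exact (hπ x hx).2.1) hne
    omega
  obtain ⟨p, hp⟩ := parent_exists (H := H) π ρ (fun x hx => (hπ x hx).2.2)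
  obtain ⟨rt, hrt⟩ := root_exists (H := H) p ρ (fun x hx => ⟨(hp x hx).1, fun h => ((hp x hx).2.1 h).2⟩)
  set E : Finset (Finset V) := F \ (univ \ H).image π with hE
  have himg : (univ \ H).image π ⊆ F := by
    intro T hT
    obtain ⟨x, hx, rfl⟩ := mem_image.1 hT
    exact (hπ x (by simpa using hx)).1
  have hcardimg : ((univ \ H).image π).card = Fintype.card V - H.card := by
    rw [card_image_of_injOn, card_sdiff_of_subset (subset_univ _), card_univ]
    intro x hx y hy hxy
    exact hinj x (by simpa using hx) y (by simpa using hy) hxy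
  have hHV : H.card ≤ Fintype.card V := card_le_univ _
  have hEcard : E.card + Fintype.card V = F.card + H.card := by
    have h1 : E.card = F.card - ((univ \ H).image π).card := card_sdiff_of_subset himg
    have h2 := card_le_card himg
    omega
  have hEnot : ∀ T ∈ F, T ∉ E → ∃ x, x ∉ H ∧ T = π x := by
    intro T hT hTE
    by_contra hcon
    apply hTE
    rw [hE, mem_sdiff]
    refine ⟨hT, fun him => ?_⟩
    obtain ⟨x, hx, rfl⟩ := mem_image.1 him
    exact hcon ⟨x, by simpa using hx, rfl⟩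
  set X0 : Finset V := univ.filter (fun x => x ∉ H ∧ ∃ T ∈ E ∪ F0 F H, x ∈ T) with hX0
  have hX0card : X0.card ≤ 3 * (E.card + (F0 F H).card) := by
    have hsub : X0 ⊆ (E ∪ F0 F H).biUnion id := by
      intro x hx
      obtain ⟨-, -, T, hT, hxT⟩ := mem_filter.1 hx
      exact mem_biUnion.2 ⟨T, hT, hxT⟩
    have h3 : ∀ T ∈ E ∪ F0 F H, T.card = 3 := by
      intro T hT
      rcases mem_union.1 hT with h | h
      · exact hF.c3 T (mem_sdiff.1 h).1
      · exact hF.c3 T (mem_filter.1 h).1
    calc X0.card ≤ _ := card_le_card hsub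
      _ ≤ ∑ T ∈ E ∪ F0 F H, (id T).card := card_biUnion_le
      _ = ∑ T ∈ E ∪ F0 F H, 3 := sum_congr rfl (fun T hT => h3 T hT)
      _ = 3 * (E ∪ F0 F H).card := by rw [sum_const, smul_eq_mul, mul_comm]
      _ ≤ 3 * (E.card + (F0 F H).card) := Nat.mul_le_mul_left _ (card_union_le _ _)
  set G : Finset V := univ.filter (fun z => z ∉ H ∧ p z = z ∧ z ∉ X0.image rt) with hG
  have hGmem : ∀ z, z ∈ G ↔ z ∉ H ∧ p z = z ∧ z ∉ X0.image rt := by
    intro z; simp only [hG, mem_filter, mem_univ, true_and]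
  refine ⟨G.image π, E, ?_, sdiff_subset, hEcard, ?_, ?_⟩
  · -- G2 ⊆ F2
    intro T hT
    obtain ⟨z, hz, rfl⟩ := mem_image.1 hT
    obtain ⟨hzH, hpz, -⟩ := (hGmem z).1 hz
    refine mem_filter.2 ⟨(hπ z hzH).1, ?_⟩
    have hsub : (π z).erase z ⊆ π z ∩ H := by
      intro y hy
      obtain ⟨hyz, hyπ⟩ := mem_erase.1 hy
      exact mem_inter.2 ⟨hyπ, (hp z hzH).2.2 hpz y hyπ hyz⟩
    have h1 := card_le_card hsub
    rw [card_erase_of_mem (hπ z hzH).2.1, hF.c3 _ (hπ z hzH).1] at h1
    exact h1
  · -- number of bad triples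
    have hsub : F2 F H \ G.image π ⊆ E ∪ (X0.image rt).image π := by
      intro T hT
      obtain ⟨hT2, hTG⟩ := mem_sdiff.1 hT
      obtain ⟨hTF, hTc⟩ := mem_filter.1 hT2
      by_cases hTE : T ∈ E
      · exact mem_union_left _ hTE
      obtain ⟨x, hxH, rfl⟩ := hEnot T hTF hTE
      have hpx : p x = x := by
        by_contra hne
        obtain ⟨h1, h2⟩ := (hp x hxH).2.1 hne
        have hpH := (hp x hxH).1
        have hsub2 : (π x ∩ H) ⊆ ((π x).erase x).erase (p x) := by
          intro y hy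
          obtain ⟨hy1, hy2⟩ := mem_inter.1 hy
          refine mem_erase.2 ⟨?_, mem_erase.2 ⟨?_, hy1⟩⟩
          · rintro rfl; exact hpH hy2
          · rintro rfl; exact hxH hy2
        have hc := card_le_card hsub2
        rw [card_erase_of_mem (mem_erase.2 ⟨hne, h1⟩), card_erase_of_mem (hπ x hxH).2.1,
          hF.c3 _ (hπ x hxH).1] at hc
        omega
      refine mem_union_right _ (mem_image_of_mem π ?_)
      by_contra hx0
      exact hTG (mem_image_of_mem π ((hGmem x).2 ⟨hxH, hpx, hx0⟩))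
    calc (F2 F H \ G.image π).card ≤ _ := card_le_card hsub
      _ ≤ E.card + ((X0.image rt).image π).card := card_union_le _ _
      _ ≤ E.card + X0.card := Nat.add_le_add_left (card_image_le.trans card_image_le) _
      _ ≤ 4 * E.card + 3 * (F0 F H).card := by omega
  · -- the closed set
    intro T₁ hT₁ T₂ hT₂ hne hbad
    set K : Finset V := T₁ ∪ T₂ with hK
    set W : Finset V := (K ∩ H) ∪ univ.filter (fun x => x ∉ H ∧ rt x ∈ G ∧
      ∀ k, (π (p^[k] x) ∩ H) ⊆ K) with hW
    have hWhub : ∀ x, x ∈ H → (x ∈ W ↔ x ∈ K) := by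
      intro x hx
      simp only [hW, mem_union, mem_inter, mem_filter, mem_univ, true_and, hx, and_true,
        not_true_eq_false, false_and, or_false]
    have hWnon : ∀ x, x ∉ H → (x ∈ W ↔ rt x ∈ G ∧ ∀ k, (π (p^[k] x) ∩ H) ⊆ K) := by
      intro x hx
      simp only [hW, mem_union, mem_inter, mem_filter, mem_univ, true_and, hx, and_false,
        not_false_eq_true, false_or]
    have hGW : ∀ z ∈ G, π z ∩ H ⊆ K → π z ⊆ W := by
      intro z hz hzK y hy
      obtain ⟨hzH, hpz, hz0⟩ := (hGmem z).1 hz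
      by_cases hyz : y = z
      · subst hyz
        refine (hWnon y hzH).2 ⟨?_, fun k => ?_⟩
        · rw [(hrt y hzH).2.2.1 hpz]; exact hz
        · rw [Function.iterate_fixed hpz k]; exact hzK
      · have hyH := (hp z hzH).2.2 hpz y hy hyz
        exact (hWhub y hyH).2 (hzK (mem_inter.2 ⟨hy, hyH⟩))
    have hT₁F : T₁ ∈ F := by
      obtain ⟨z, hz, rfl⟩ := mem_image.1 hT₁
      exact (hπ z ((hGmem z).1 hz).1).1
    have hT₂F : T₂ ∈ F := by
      obtain ⟨z, hz, rfl⟩ := mem_image.1 hT₂
      exact (hπ z ((hGmem z).1 hz).1).1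
    have hcross : ∀ T ∈ F, ∀ a ∈ T, ∀ b ∈ T, a ≠ b → a ∈ H → b ∈ H → a ∈ T₁ → b ∈ T₂ →
        T ∈ G.image π := by
      intro T hT a ha b hb hab haH hbH haT hbT
      by_contra hTG
      have hT2 : T ∈ F2 F H := by
        refine mem_filter.2 ⟨hT, ?_⟩
        have : ({a, b} : Finset V) ⊆ T ∩ H := by
          intro c hc
          simp only [mem_insert, mem_singleton] at hc
          rcases hc with rfl | rfl
          · exact mem_inter.2 ⟨ha, haH⟩
          · exact mem_inter.2 ⟨hb, hbH⟩
        have h2 := card_le_card this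
        rwa [card_pair hab] at h2
      exact hbad a haT b hbT hab T (mem_sdiff.2 ⟨hT2, hTG⟩) ⟨ha, hb⟩
    have hhub : ∀ T ∈ F, ∀ a ∈ T, ∀ b ∈ T, a ≠ b → a ∈ H → b ∈ H → a ∈ K → b ∈ K →
        T ∈ G.image π := by
      intro T hT a ha b hb hab haH hbH haK hbK
      by_cases h1 : a ∈ T₁ ∧ b ∈ T₁
      · rw [hF.lin T hT T₁ hT₁F a b ha hb h1.1 h1.2 hab]; exact hT₁
      by_cases h2 : a ∈ T₂ ∧ b ∈ T₂
      · rw [hF.lin T hT T₂ hT₂F a b ha hb h2.1 h2.2 hab]; exact hT₂
      rcases mem_union.1 haK with h | h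
      · have hb2 : b ∈ T₂ := (mem_union.1 hbK).resolve_left (fun h' => h1 ⟨h, h'⟩)
        exact hcross T hT a ha b hb hab haH hbH h hb2
      · have hb1 : b ∈ T₁ := (mem_union.1 hbK).resolve_right (fun h' => h2 ⟨h, h'⟩)
        exact hcross T hT b hb a ha (Ne.symm hab) hbH haH hb1 h
    have hnon : ∀ T ∈ F, ∀ a ∈ T, ∀ b ∈ T, a ≠ b → a ∉ H → a ∈ W → b ∈ W → T ⊆ W := by
      intro T hT a ha b hb hab haH haW hbW
      obtain ⟨hrG, hlab⟩ := (hWnon a haH).1 haW
      have hX : a ∉ X0 := by
        intro h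
        exact ((hGmem _).1 hrG).2.2 (mem_image_of_mem rt h)
      have hTE : T ∉ E := by
        intro h
        exact hX (mem_filter.2 ⟨mem_univ _, haH, T, mem_union_left _ h, ha⟩)
      have hT0 : T ∉ F0 F H := by
        intro h
        exact hX (mem_filter.2 ⟨mem_univ _, haH, T, mem_union_right _ h, ha⟩)
      obtain ⟨w, hw, hwH⟩ : ∃ w ∈ T, w ∈ H := by
        by_contra hcon
        apply hT0
        refine mem_filter.2 ⟨hT, fun x hx hxH => hcon ⟨x, hx, hxH⟩⟩
      have hwa : w ≠ a := by rintro rfl; exact haH hwH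
      have hT3 := hF.c3 T hT
      obtain ⟨y, hyH, hTy⟩ := hEnot T hT hTE
      by_cases hya : y = a
      · subst hya
        intro t ht
        by_cases htH : t ∈ H
        · refine (hWhub t htH).2 (hlab 0 (mem_inter.2 ⟨?_, htH⟩))
          show t ∈ π y
          rw [← hTy]; exact ht
        by_cases hty : t = y
        · rw [hty]; exact haW
        have hpy : p y ≠ y := by
          intro h
          exact htH ((hp y hyH).2.2 h t (hTy ▸ ht) hty)
        obtain ⟨hpy1, hpy2⟩ := (hp y hyH).2.1 hpy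
        have hpyH := (hp y hyH).1
        have hpyT : p y ∈ T := by rw [hTy]; exact hpy1
        have htw : w ≠ t := by rintro rfl; exact htH hwH
        have : p y = t := by
          rcases three hT3 hw ha ht hpyT hwa htw (Ne.symm hty) with h | h | h
          · exact absurd (h ▸ hwH) hpyH
          · exact absurd h hpy
          · exact h
        rw [← this]
        refine (hWnon _ hpyH).2 ⟨?_, fun k => ?_⟩
        · rw [(hrt y hyH).2.1]; exact hrG
        · rw [← Function.iterate_succ_apply]; exact hlab (k + 1)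
      · have hyT : y ∈ T := by rw [hTy]; exact (hπ y hyH).2.1
        have hwy : w ≠ y := by rintro rfl; exact hyH hwH
        have hpy : p y ≠ y := by
          intro h
          exact haH ((hp y hyH).2.2 h a (hTy ▸ ha) (Ne.symm hya))
        obtain ⟨hpy1, hpy2⟩ := (hp y hyH).2.1 hpy
        have hpyH := (hp y hyH).1
        have hpyT : p y ∈ T := by rw [hTy]; exact hpy1
        have hpa : p y = a := by
          rcases three hT3 hw ha hyT hpyT hwa hwy (Ne.symm hya) with h | h | h
          · exact absurd (h ▸ hwH) hpyH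
          · exact h
          · exact absurd h hpy
        have hwK : w ∈ K := by
          rcases three hT3 hw ha hyT hb hwa hwy (Ne.symm hya) with h | h | h
          · exact (hWhub w hwH).1 (h ▸ hbW)
          · exact absurd h (Ne.symm hab)
          · rw [h] at hbW
            refine ((hWnon y hyH).1 hbW).2 0 (mem_inter.2 ⟨?_, hwH⟩)
            show w ∈ π y
            rw [← hTy]; exact hw
        intro t ht
        rcases three hT3 hw ha hyT ht hwa hwy (Ne.symm hya) with h | h | h
        · rw [h]; exact (hWhub w hwH).2 hwK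
        · rw [h]; exact haW
        · rw [h]
          refine (hWnon y hyH).2 ⟨?_, fun k => ?_⟩
          · rw [← (hrt y hyH).2.1, hpa]; exact hrG
          · cases k with
            | zero =>
              intro s hs
              obtain ⟨hs1, hs2⟩ := mem_inter.1 hs
              have hsT : s ∈ T := by rw [hTy]; exact hs1
              rcases three hT3 hw ha hyT hsT hwa hwy (Ne.symm hya) with h | h | h
              · rw [h]; exact hwK
              · exact absurd (h ▸ hs2) haH
              · exact absurd (h ▸ hs2) hyH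
            | succ k =>
              rw [Function.iterate_succ_apply, hpa]
              exact hlab k
    have hclosed : Closed F W := by
      intro T hT a ha b hb hab haW hbW
      by_cases haH : a ∈ H
      · by_cases hbH : b ∈ H
        · have haK := (hWhub a haH).1 haW
          have hbK := (hWhub b hbH).1 hbW
          obtain ⟨z, hz, hzT⟩ := mem_image.1 (hhub T hT a ha b hb hab haH hbH haK hbK)
          rw [← hzT]
          refine hGW z hz ?_
          have hzH := ((hGmem z).1 hz).1
          have haz : a ≠ z := by rintro rfl; exact hzH haH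
          have hbz : b ≠ z := by rintro rfl; exact hzH hbH
          intro s hs
          obtain ⟨hs1, hs2⟩ := mem_inter.1 hs
          have hzz : z ∈ T := by rw [← hzT]; exact (hπ z hzH).2.1
          rcases three (hF.c3 T hT) ha hb hzz (hzT ▸ hs1) hab haz hbz with h | h | h
          · rw [h]; exact haK
          · rw [h]; exact hbK
          · exact absurd (h ▸ hs2) hzH
        · exact hnon T hT b hb a ha (Ne.symm hab) hbH hbW haW
      · exact hnon T hT a ha b hb hab haH haW hbW
    have hT₁W : T₁ ⊆ W := by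
      obtain ⟨z, hz, hzT⟩ := mem_image.1 hT₁
      rw [← hzT]
      refine hGW z hz ?_
      rw [hzT]
      exact inter_subset_left.trans subset_union_left
    have hT₂W : T₂ ⊆ W := by
      obtain ⟨z, hz, hzT⟩ := mem_image.1 hT₂
      rw [← hzT]
      refine hGW z hz ?_
      rw [hzT]
      exact inter_subset_left.trans subset_union_right
    intro v hv
    exact (hWhub v hv).1 (hF.ws T₁ hT₁F T₂ hT₂F hne W hT₁W hT₂W hclosed v)

end Pool.Agent.X50.WS
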